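import Mathlib

open MvPolynomial

namespace Pool.Agent.H.MP_3d4caa_nt

lemma frk (k : Type*) [Field k] (n m : ℕ) :
    Module.finrank k (homogeneousSubmodule (Fin (n + 1)) k m) = (m + n).choose n := by
  rw [homogeneousSubmodule_eq_finsupp_supported]
  have e : {d : Fin (n + 1) →₀ ℕ | d.degree = m} =
      ((Finset.univ.finsuppAntidiag m : Finset (Fin (n + 1) →₀ ℕ)) : Set _) := by
    ext d; simp [Finset.mem_finsuppAntidiag, Finsupp.degree_eq_sum]
  rw [e]
  refine (Module.finrank_eq_card_basis (basisRestrictSupport k _)).trans ?_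
  simp only [Finset.coe_sort_coe, Fintype.card_coe, Finset.card_finsuppAntidiag_nat_eq_choose,
    Finset.card_univ, Fintype.card_fin]
  rw [show n + 1 + m - 1 = m + n by omega]
  exact Nat.choose_symm_add

lemma comp0 {k ι σ : Type*} [CommRing k] {d : ℕ} (hd : 0 < d) (g : ι → MvPolynomial σ k)
    (hg : ∀ i, (g i).IsHomogeneous d) (P : MvPolynomial ι k) (h : aeval g P = 0) (j : ℕ) :
    aeval g (homogeneousComponent j P) = 0 := by
  by_cases hj : P.totalDegree < j
  · rw [homogeneousComponent_eq_zero _ _ hj, map_zero]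
  have h1 := congrArg (homogeneousComponent (d * j)) h
  rw [← sum_homogeneousComponent P, map_sum, map_sum, map_zero,
    Finset.sum_eq_single_of_mem j (by simp; omega)] at h1
  · rwa [homogeneousComponent_of_mem ((homogeneousComponent_isHomogeneous j P).aeval g hg),
      if_pos rfl] at h1
  · intro i _ hi
    rw [homogeneousComponent_of_mem ((homogeneousComponent_isHomogeneous i P).aeval g hg),
      if_neg]
    exact fun e => hi (Nat.eq_of_mul_eq_mul_left hd e).symm

lemma tow {k B : Type*} [CommRing k] [CommRing B] [Algebra k B] {N : ℕ} (γ : Fin (N + 1) → B)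
    (R : MvPolynomial (Fin (N + 1)) k) :
    Polynomial.aevalTower (aeval (Fin.tail γ) : MvPolynomial (Fin N) k →ₐ[k] B) (γ 0)
      (finSuccEquiv k N R) = aeval γ R := by
  have : (Polynomial.aevalTower (aeval (Fin.tail γ) : MvPolynomial (Fin N) k →ₐ[k] B) (γ 0)).comp
      (finSuccEquiv k N).toAlgHom = aeval γ := by
    ext i
    refine Fin.cases ?_ (fun i => ?_) i
    · simp [finSuccEquiv_X_zero]
    · simp [finSuccEquiv_X_succ, Fin.tail]
  exact DFunLike.congr_fun this R

lemma cdeg {N : ℕ} (i : ℕ) (m : Fin N →₀ ℕ) : (Finsupp.cons i m).degree = i + m.degree := by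
  simp [Finsupp.degree_eq_sum, Fin.sum_univ_succ]

lemma mon {k : Type*} [Field k] {N δ : ℕ} (R : MvPolynomial (Fin (N + 1)) k)
    (hR : R.IsHomogeneous δ) :
    eval (Fin.cons 1 0) R = coeff (Finsupp.cons δ 0) R ∧
      (finSuccEquiv k N R).coeff δ = C (coeff (Finsupp.cons δ 0) R) ∧
      (finSuccEquiv k N R).natDegree ≤ δ := by
  refine ⟨?_, ?_, ?_⟩
  · rw [eval_eq_eval_mv_eval']
    have : Polynomial.map (eval (0 : Fin N → k)) (finSuccEquiv k N R) =
        Polynomial.monomial δ (coeff (Finsupp.cons δ 0) R) := by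
      ext i
      rw [Polynomial.coeff_map, eval_zero, constantCoeff_eq, finSuccEquiv_coeff_coeff,
        Polynomial.coeff_monomial]
      split_ifs with h
      · rw [h]
      · exact hR.coeff_eq_zero (by rw [cdeg]; simpa using Ne.symm h)
    rw [this]; simp
  · ext m
    rw [finSuccEquiv_coeff_coeff, coeff_C]
    split_ifs with h
    · rw [h]
    · refine hR.coeff_eq_zero ?_
      rw [cdeg]
      have : m.degree ≠ 0 := fun e => h ((Finsupp.degree_eq_zero_iff m).1 e).symm
      omega
  · rw [natDegree_finSuccEquiv]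
    exact (degreeOf_le_totalDegree _ _).trans hR.totalDegree_le

lemma minp {k B : Type*} [Field k] [CommRing B] [IsDomain B] [Algebra k B] {N : ℕ}
    (γ : Fin N → B) (hγ : AlgebraicIndependent k γ) (b : B)
    (q : Polynomial (MvPolynomial (Fin N) k)) (hq : q.Monic)
    (h0 : Polynomial.aevalTower (aeval γ : MvPolynomial (Fin N) k →ₐ[k] B) b q = 0) :
    ∃ P : Polynomial (MvPolynomial (Fin N) k), P.Monic ∧
      Polynomial.aevalTower (aeval γ : MvPolynomial (Fin N) k →ₐ[k] B) b P = 0 ∧
      ∀ p, Polynomial.aevalTower (aeval γ : MvPolynomial (Fin N) k →ₐ[k] B) b p = 0 →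
        p.natDegree < P.natDegree → p = 0 := by
  let _ : Algebra (MvPolynomial (Fin N) k) B :=
    (aeval γ : MvPolynomial (Fin N) k →ₐ[k] B).toRingHom.toAlgebra
  have : FaithfulSMul (MvPolynomial (Fin N) k) B :=
    (faithfulSMul_iff_algebraMap_injective _ _).2 hγ
  have hi : IsIntegral (MvPolynomial (Fin N) k) b := ⟨q, hq, h0⟩
  refine ⟨minpoly _ b, minpoly.monic hi, minpoly.aeval _ b, fun p hp hl => ?_⟩
  by_contra h
  exact absurd (Polynomial.natDegree_le_of_dvd (minpoly.isIntegrallyClosed_dvd hi hp) h)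
    (by omega)

lemma asym {n d e : ℕ} (h : ∀ m, e * (m + n).choose n ≤ ((m + e) * d + n).choose n) :
    e ≤ d ^ n := by
  have h1 : ∀ m : ℕ, (e : ℝ) ≤ (d + ((e * d + n : ℕ) : ℝ) / ((m : ℝ) + 1)) ^ n := by
    intro m
    have h2 : e * (m + 1) ^ n ≤ ((m + e) * d + n) ^ n := by
      have a := Nat.mul_le_mul_left n.factorial (h m)
      rw [← Nat.ascFactorial_eq_factorial_mul_choose, mul_left_comm,
        ← Nat.ascFactorial_eq_factorial_mul_choose] at a
      exact (Nat.mul_le_mul_left e (Nat.pow_succ_le_ascFactorial _ _)).trans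
        (a.trans (Nat.ascFactorial_le_pow_add _ _))
    have h3 : (e : ℝ) * ((m : ℝ) + 1) ^ n ≤ (((m : ℝ) + e) * d + n) ^ n := by exact_mod_cast h2
    have hm : (0 : ℝ) < (m : ℝ) + 1 := by positivity
    rw [← le_div_iff₀ (by positivity), ← div_pow] at h3
    refine h3.trans ?_
    gcongr
    rw [div_le_iff₀ hm, add_mul (d : ℝ), div_mul_cancel₀ _ hm.ne']
    push_cast
    nlinarith [(Nat.cast_nonneg d : (0 : ℝ) ≤ d)]
  have h4 : Filter.Tendsto (fun m : ℕ => (d + ((e * d + n : ℕ) : ℝ) / ((m : ℝ) + 1)) ^ n)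
      Filter.atTop (nhds (((d : ℝ) + 0) ^ n)) :=
    (tendsto_const_nhds.add (tendsto_const_nhds.div_atTop
      (Filter.tendsto_atTop_add_const_right _ _ tendsto_natCast_atTop_atTop))).pow n
  have := ge_of_tendsto' h4 h1
  rw [add_zero] at this
  exact_mod_cast this

lemma count {k : Type*} [Field k] {n d e : ℕ} (γ : Fin (n + 1) → MvPolynomial (Fin (n + 1)) k)
    (b : MvPolynomial (Fin (n + 1)) k) (hγ : ∀ i, (γ i).IsHomogeneous d) (hb : b.IsHomogeneous d)
    (h : ∀ p, Polynomial.aevalTower (aeval γ : MvPolynomial (Fin (n + 1)) k →ₐ[k] _) b p = 0 →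
      p.natDegree < e → p = 0) : e ≤ d ^ n := by
  refine asym fun m => ?_
  let Ψ : (Fin e → homogeneousSubmodule (Fin (n + 1)) k m) →ₗ[k] MvPolynomial (Fin (n + 1)) k :=
    ∑ a : Fin e, LinearMap.mulRight k (γ 0 ^ (e - a) * b ^ (a : ℕ)) ∘ₗ
      (aeval γ : MvPolynomial (Fin (n + 1)) k →ₐ[k] _).toLinearMap ∘ₗ
      (homogeneousSubmodule (Fin (n + 1)) k m).subtype ∘ₗ LinearMap.proj a
  have hΨ : ∀ p, Ψ p = ∑ a : Fin e, aeval γ (p a).1 * (γ 0 ^ (e - a) * b ^ (a : ℕ)) := by
    intro p; simp [Ψ, mul_assoc]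
  have hm : ∀ p, Ψ p ∈ homogeneousSubmodule (Fin (n + 1)) k ((m + e) * d) := by
    intro p
    rw [hΨ]
    refine Submodule.sum_mem _ fun a _ => ?_
    have := (IsHomogeneous.aeval (p a).2 γ hγ).mul (((hγ 0).pow (e - a)).mul (hb.pow a))
    rwa [show d * m + (d * (e - a) + d * a) = (m + e) * d by
      rw [← mul_add, Nat.sub_add_cancel a.2.le]; ring] at this
  have hi : Function.Injective (Ψ.codRestrict _ hm) := by
    rw [← LinearMap.ker_eq_bot, LinearMap.ker_codRestrict, LinearMap.ker_eq_bot']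
    intro p hp
    rcases Nat.eq_zero_or_pos e with rfl | he
    · exact Subsingleton.elim _ _
    have h1 := h (∑ a : Fin e, Polynomial.monomial a ((p a).1 * X 0 ^ (e - a))) (by
      rw [← hp, hΨ, map_sum]
      refine Finset.sum_congr rfl fun a _ => ?_
      rw [← Polynomial.C_mul_X_pow_eq_monomial]
      simp [mul_assoc]) (by
      refine lt_of_le_of_lt (Polynomial.natDegree_sum_le_of_forall_le _ _ (n := e - 1)
        fun a _ => (Polynomial.natDegree_monomial_le _).trans (by omega)) (by omega))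
    funext a
    have h2 := congrArg (fun q => Polynomial.coeff q a) h1
    simp only [Polynomial.finsetSum_coeff, Polynomial.coeff_monomial, Fin.val_inj,
      Finset.sum_ite_eq', Finset.mem_univ, if_true, Polynomial.coeff_zero] at h2
    exact Subtype.ext ((mul_eq_zero.1 h2).resolve_right (pow_ne_zero _ (X_ne_zero _)))
  have := fun j => Module.Finite.iff_fg.2 (homogeneousSubmodule_fg (Fin (n + 1)) k j)
  have := LinearMap.finrank_le_finrank_of_injective hi
  rwa [Module.finrank_pi_fintype, Finset.sum_const, Finset.card_univ, Fintype.card_fin, frk, frk,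
    smul_eq_mul] at this

theorem perron {k : Type*} [Field k] [Infinite k] {n d : ℕ} (hd : 0 < d)
    (g : Fin (n + 2) → MvPolynomial (Fin (n + 1)) k) (hg : ∀ i, (g i).IsHomogeneous d)
    (ha : Algebra.IsAlgebraic (Algebra.adjoin k (Set.range g)) (MvPolynomial (Fin (n + 1)) k)) :
    ∃ e ≤ d ^ n, ∃ R : MvPolynomial (Fin (n + 2)) k, R ≠ 0 ∧ R.IsHomogeneous e ∧
      aeval g R = 0 := by
  have h1 : ¬ AlgebraicIndependent k g := fun h => by
    have := h.lift_cardinalMk_le_trdeg
    rw [MvPolynomial.trdeg_of_isDomain] at this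
    simp only [Cardinal.mk_fintype, Fintype.card_fin, Cardinal.lift_natCast, Nat.cast_le] at this
    omega
  rw [algebraicIndependent_iff] at h1
  push Not at h1
  obtain ⟨P, hP, hP0⟩ := h1
  obtain ⟨δ, hδ⟩ : ∃ δ, homogeneousComponent δ P ≠ 0 := by
    by_contra! h
    exact hP0 (by rw [← sum_homogeneousComponent P]; simp [h])
  have hR0 := comp0 hd g hg P hP δ
  have hh0 := homogeneousComponent_isHomogeneous δ P
  generalize homogeneousComponent δ P = R0 at hδ hR0 hh0
  obtain ⟨c, hc, hc0⟩ : ∃ c : Fin (n + 2) → k, c 0 ≠ 0 ∧ eval c R0 ≠ 0 := by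
    by_contra! h
    exact hδ (funext_set (fun _ => {0}ᶜ) (fun _ => (Set.finite_singleton _).infinite_compl)
      fun x hx => by rw [h x (hx 0 trivial), map_zero])
  let L : Fin (n + 2) → MvPolynomial (Fin (n + 2)) k :=
    Fin.cons (C (c 0) * X 0) fun i => X i.succ + C (c i.succ) * X 0
  let L' : Fin (n + 2) → MvPolynomial (Fin (n + 2)) k :=
    Fin.cons (C (c 0)⁻¹ * X 0) fun i => X i.succ - C (c i.succ) * (C (c 0)⁻¹ * X 0)
  have hL : ∀ i, (L i).IsHomogeneous 1 := fun i => Fin.cases (isHomogeneous_C_mul_X _ _)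
    (fun i => (isHomogeneous_X _ _).add (isHomogeneous_C_mul_X _ _)) i
  have hL' : ∀ i, (L' i).IsHomogeneous 1 := fun i => Fin.cases (isHomogeneous_C_mul_X _ _)
    (fun i => (isHomogeneous_X _ _).sub ((isHomogeneous_C_mul_X _ _).C_mul _)) i
  let γ : Fin (n + 2) → MvPolynomial (Fin (n + 1)) k := fun i => aeval g (L' i)
  have hγ : ∀ i, (γ i).IsHomogeneous d := fun i => by
    simpa only [mul_one] using (hL' i).aeval g hg
  have hLγ : ∀ i, aeval γ (L i) = g i := fun i => by
    refine Fin.cases ?_ (fun i => ?_) i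
    · have : (C (c 0) : MvPolynomial (Fin (n + 1)) k) * C (c 0)⁻¹ = 1 := by
        rw [← C_mul, mul_inv_cancel₀ hc, C_1]
      simp only [L, L', γ, Fin.cons_zero, map_mul, aeval_C, aeval_X, algebraMap_eq]
      rw [← mul_assoc, this, one_mul]
    · simp [L, L', γ]
  have hcL : (fun i => eval (Fin.cons 1 0) (L i)) = c := by
    funext i
    refine Fin.cases ?_ (fun i => ?_) i <;> simp [L]
  have hcL' : (fun i => eval c (L' i)) = Fin.cons 1 0 := by
    funext i
    refine Fin.cases ?_ (fun i => ?_) i <;> simp [L', hc]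
  have ev : ∀ (x : Fin (n + 2) → k) (M : Fin (n + 2) → MvPolynomial (Fin (n + 2)) k)
      (Q : MvPolynomial (Fin (n + 2)) k), eval x (aeval M Q) = eval (fun i => eval x (M i)) Q := by
    intro x M Q
    rw [aeval_eq_bind₁, ← coe_aeval_eq_eval, ← coe_aeval_eq_eval]
    exact aeval_bind₁ _ _ _
  have hh1 : (aeval L R0).IsHomogeneous δ := by simpa using hh0.aeval L hL
  have hR1 : aeval γ (aeval L R0) = 0 := by
    rw [aeval_eq_bind₁ L, aeval_bind₁, funext hLγ, hR0]
  obtain ⟨m1, m2, m3⟩ := mon _ hh1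
  rw [ev, hcL] at m1
  rw [← m1] at m2
  have hq : (Polynomial.C (C (eval c R0)⁻¹) * finSuccEquiv k (n + 1) (aeval L R0)).Monic :=
    Polynomial.monic_of_natDegree_le_of_coeff_eq_one δ
      ((Polynomial.natDegree_C_mul_le _ _).trans m3)
      (by rw [Polynomial.coeff_C_mul, m2, ← C_mul, inv_mul_cancel₀ hc0, C_1])
  have hq0 : Polynomial.aevalTower (aeval (Fin.tail γ) : MvPolynomial (Fin (n + 1)) k →ₐ[k] _) (γ 0)
      (Polynomial.C (C (eval c R0)⁻¹) * finSuccEquiv k (n + 1) (aeval L R0)) = 0 := by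
    rw [map_mul, tow, hR1, mul_zero]
  generalize Polynomial.C (C (eval c R0)⁻¹) * finSuccEquiv k (n + 1) (aeval L R0) = q at hq hq0
  have hi : AlgebraicIndependent k (Fin.tail γ) := by
    let S := Algebra.adjoin k (Set.range (Fin.tail γ))
    have hS : ∀ p, aeval (Fin.tail γ) p ∈ S := fun p => by
      simp only [S, Algebra.adjoin_range_eq_range_aeval]; exact ⟨p, rfl⟩
    have h0 : IsAlgebraic S (γ 0) := by
      refine IsIntegral.isAlgebraic ⟨q.map ((aeval (Fin.tail γ)).codRestrict S hS).toRingHom,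
        hq.map _, ?_⟩
      rw [Polynomial.eval₂_map]
      exact hq0
    have hcl : ∀ i, γ i ∈ (Subalgebra.algebraicClosure S (MvPolynomial (Fin (n + 1)) k)).restrictScalars k :=
      fun i => Fin.cases h0 (fun i => isAlgebraic_algebraMap
        (⟨_, Algebra.subset_adjoin ⟨i, rfl⟩⟩ : S)) i
    have hsp : (AlgebraicIndependent.matroid k (MvPolynomial (Fin (n + 1)) k)).Spanning
        (Set.range (Fin.tail γ)) := by
      rw [← AlgebraicIndependent.matroid_spanning_iff] at ha
      rw [← Matroid.closure_spanning_iff]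
      refine ha.superset ?_
      rw [AlgebraicIndependent.matroid_closure_eq]
      rintro _ ⟨i, rfl⟩
      rw [← hLγ]
      have := Algebra.adjoin_le (R := k) (s := Set.range γ) (S := _) (Set.range_subset_iff.2 hcl)
      refine this ?_
      rw [Algebra.adjoin_range_eq_range_aeval]; exact ⟨_, rfl⟩
    rw [AlgebraicIndependent.matroid_spanning_iff] at hsp
    exact (Algebra.IsAlgebraic.isTranscendenceBasis_of_lift_le_trdeg_of_finite k _
      (by rw [MvPolynomial.trdeg_of_isDomain]; simp)).1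
  obtain ⟨P, hP, hP0, hPm⟩ := minp _ hi _ q hq hq0
  have hh2 := homogeneousComponent_isHomogeneous P.natDegree ((finSuccEquiv k (n + 1)).symm P)
  refine ⟨P.natDegree, count _ _ (fun i => hγ _) (hγ 0) hPm,
    aeval L' (homogeneousComponent P.natDegree ((finSuccEquiv k (n + 1)).symm P)), fun h => ?_,
    by simpa using hh2.aeval L' hL', ?_⟩
  · have := congrArg (eval c) h
    rw [ev, hcL', (mon _ hh2).1, coeff_homogeneousComponent, if_pos (by rw [cdeg]; simp),
      ← finSuccEquiv_coeff_coeff, AlgEquiv.apply_symm_apply, hP.coeff_natDegree] at this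
    simp at this
  · rw [aeval_eq_bind₁ L', aeval_bind₁]
    refine comp0 hd γ hγ _ ?_ _
    rw [← tow, AlgEquiv.apply_symm_apply, hP0]

end Pool.Agent.H.MP_3d4caa_nt
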