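import Pool.Agent.H.MP_3d4caa_nt.A

open MvPolynomial

namespace Pool.Agent.H.MP_3d4caa_nt

lemma expand {k ι : Type*} [CommRing k] [Fintype ι] [Nonempty ι] {e : ℕ} (R : MvPolynomial ι k)
    (hR : R.IsHomogeneous e) :
    ∃ a : (Fin e → ι) → k, R = ∑ I, C (a I) * ∏ j, X (I j) := by
  classical
  have h1 : ∀ s : ι →₀ ℕ, s.degree = e → ∃ I : Fin e → ι,
      (monomial s 1 : MvPolynomial ι k) = ∏ j, X (I j) := by
    clear hR
    induction e with
    | zero =>
      intro s hs
      rw [Finsupp.degree_eq_zero_iff] at hs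
      exact ⟨Fin.elim0, by simp [hs]⟩
    | succ e ih =>
      intro s hs
      obtain ⟨i, hi⟩ : ∃ i, s i ≠ 0 := by
        by_contra! h
        rw [show s = 0 from Finsupp.ext h] at hs
        simp at hs
      have e1 : s = Finsupp.single i 1 + (s - Finsupp.single i 1) := by
        ext j
        by_cases hj : i = j
        · subst hj; simp; omega
        · simp [hj]
      obtain ⟨I, hI⟩ := ih (s - Finsupp.single i 1) (by
          rw [e1, map_add, Finsupp.degree_single] at hs; omega)
      refine ⟨Fin.cons i I, ?_⟩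
      rw [Fin.prod_univ_succ, e1]
      simp only [Fin.cons_zero, Fin.cons_succ]
      rw [← hI, X, monomial_mul, one_mul]
  choose! I hI using h1
  refine ⟨fun J => ∑ s ∈ R.support, if I s = J then coeff s R else 0, ?_⟩
  simp only [map_sum, Finset.sum_mul]
  rw [Finset.sum_comm]
  refine (as_sum R).trans (Finset.sum_congr rfl fun s hs => ?_)
  rw [Finset.sum_eq_single (I s) (fun J _ hJ => by simp [hJ.symm]) (by simp), if_pos rfl,
    ← hI s (by
      by_contra h
      exact mem_support_iff.1 hs (hR.coeff_eq_zero h)), C_mul_monomial, mul_one]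

variable {F : Type} [Field F] {n : ℕ}

noncomputable def th (F : Type) [Field F] (n : ℕ) :
    Fin (n + 2) → MvPolynomial (Fin (n + 1)) (Polynomial F) :=
  Fin.cons (-∑ i : Fin (n + 1), C (Polynomial.X ^ (i + 1 : ℕ)) * X i) X

noncomputable def ell {K : Type*} [Field K] {m : ℕ} (x : Fin m → K) : Polynomial K :=
  ∑ i : Fin m, Polynomial.monomial (i : ℕ) (x i)

noncomputable def rho {K : Type*} [Field K] {ι : Type*} [Fintype ι] {e : ℕ}
    (A : (Fin e → ι) → Polynomial K) (y : ι → K) : Polynomial K :=
  ∑ I, A I * Polynomial.C (∏ j, y (I j))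

lemma ell_coeff {K : Type*} [Field K] {m : ℕ} (x : Fin m → K) (i : Fin m) :
    (ell x).coeff i = x i := by
  simp [ell, Polynomial.coeff_monomial, Fin.val_inj]

lemma sub {A : Type*} [CommRing A] [Algebra F A] (τ : A) (x : Fin (n + 2) → A)
    (h : ∑ i, x i * τ ^ (i : ℕ) = 0) (P : MvPolynomial (Fin (n + 2)) F) :
    aevalTower (Polynomial.aeval τ : Polynomial F →ₐ[F] A) (Fin.tail x) (aeval (th F n) P) =
      aeval x P := by
  have : (aevalTower (Polynomial.aeval τ : Polynomial F →ₐ[F] A) (Fin.tail x)).comp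
      (aeval (th F n)) = aeval x := by
    ext i
    refine Fin.cases ?_ (fun i => ?_) i
    · rw [Fin.sum_univ_succ] at h
      simp only [th, AlgHom.comp_apply, aeval_X, Fin.cons_zero, map_neg, map_sum, map_mul,
        aevalTower_C, aevalTower_X, map_pow, Polynomial.aeval_X, Fin.tail]
      simp only [Fin.val_zero, pow_zero, mul_one, Fin.val_succ] at h
      rw [neg_eq_iff_add_eq_zero, add_comm, ← h]
      simp only [mul_comm]
    · simp [th, Fin.tail]
  exact DFunLike.congr_fun this P

lemma th_inj [IsAlgClosed F] :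
    Function.Injective (aeval (th F n) : MvPolynomial (Fin (n + 2)) F →ₐ[F] _) := by
  rw [injective_iff_map_eq_zero]
  intro P hP
  refine funext_set (fun _ => {0}ᶜ) (fun _ => (Set.finite_singleton _).infinite_compl)
    fun x hx => ?_
  obtain ⟨t, ht⟩ := IsAlgClosed.exists_root (ell x) (by
    intro h
    have h1 := ell_coeff x 1
    rw [Polynomial.coeff_eq_zero_of_degree_lt (by rw [h]; simp)] at h1
    exact hx 1 trivial h1.symm)
  have := sub t x (by simpa [ell, Polynomial.eval_finsetSum] using ht) P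
  rw [hP, map_zero] at this
  rw [map_zero, ← coe_aeval_eq_eval]
  exact this.symm

theorem geo [IsAlgClosed F] {d : ℕ} (hd : 0 < d) (f : Fin (n + 2) → MvPolynomial (Fin (n + 2)) F)
    (hf : ∀ i, (f i).IsHomogeneous d) (hi : AlgebraicIndependent F f) :
    ∃ e ≤ d ^ n, ∃ A : (Fin e → Fin (n + 2)) → Polynomial F, ∃ G : MvPolynomial (Fin (n + 2)) F,
      G ≠ 0 ∧ G.IsHomogeneous (d * e) ∧ ∀ x, ell x ∣ rho A (fun i => eval x (f i)) ∧
        (eval x G ≠ 0 → rho A (fun i => eval x (f i)) ≠ 0) := by
  let k := FractionRing (Polynomial F)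
  have hk : Function.Injective (algebraMap (Polynomial F) k) := IsFractionRing.injective _ _
  let φ : MvPolynomial (Fin (n + 1)) (Polynomial F) →ₐ[F] MvPolynomial (Fin (n + 1)) k :=
    mapAlgHom (IsScalarTower.toAlgHom F (Polynomial F) k)
  have hφ : Function.Injective φ := map_injective _ hk
  have hth : ∀ i, (th F n i).IsHomogeneous 1 := fun i => Fin.cases
    (IsHomogeneous.sum _ _ _ fun i _ => isHomogeneous_C_mul_X _ _).neg
    (fun i => isHomogeneous_X _ _) i
  let g : Fin (n + 2) → MvPolynomial (Fin (n + 1)) k := fun i => φ (aeval (th F n) (f i))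
  have hg : ∀ i, (g i).IsHomogeneous d := fun i => by
    have := ((hf i).aeval _ hth).map (algebraMap (Polynomial F) k)
    rwa [one_mul] at this
  have hgi : AlgebraicIndependent F g := hi.map' (f := φ.comp (aeval (th F n))) (hφ.comp th_inj)
  have ht : Algebra.trdeg F (MvPolynomial (Fin (n + 1)) k) = (n + 2 : ℕ) := by
    rw [← trdeg_add_eq F k, ← trdeg_add_eq F (Polynomial F) (A := k),
      trdeg_eq_zero_iff.2 (IsLocalization.isAlgebraic k (nonZeroDivisors (Polynomial F))),
      Polynomial.trdeg_of_isDomain, MvPolynomial.trdeg_of_isDomain]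
    simp only [Cardinal.mk_fintype, Fintype.card_fin, Cardinal.lift_natCast]
    push_cast; ring
  have hb := (hgi.isTranscendenceBasis_of_trdeg_le_of_finite (by rw [ht]; simp)).isAlgebraic
  have : Infinite k := Infinite.of_injective _ hk
  obtain ⟨e, he, R, hR0, hR, hRg⟩ := perron hd g hg ⟨fun b =>
    (hb.isAlgebraic b).tower_top_of_subalgebra_le
      (B := (Algebra.adjoin k (Set.range g)).restrictScalars F)
      (Algebra.adjoin_le Algebra.subset_adjoin)⟩
  obtain ⟨a, rfl⟩ := expand R hR
  obtain ⟨b, hb⟩ := IsLocalization.exist_integer_multiples_of_finite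
    (nonZeroDivisors (Polynomial F)) a
  choose A hA using hb
  have hb0 : algebraMap (Polynomial F) k b ≠ 0 := by
    rw [← map_zero (algebraMap (Polynomial F) k)]
    exact hk.ne (nonZeroDivisors.coe_ne_zero b)
  simp only [Algebra.smul_def] at hA
  obtain ⟨y, hy⟩ : ∃ y, rho A y ≠ 0 := by
    by_contra! h
    refine hR0 (funext_set (fun _ => Set.range (algebraMap F k))
      (fun _ => Set.infinite_range_of_injective (algebraMap F k).injective) fun x hx => ?_)
    choose y hy using fun i => hx i trivial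
    have h1 := congrArg (algebraMap (Polynomial F) k) (h y)
    refine mul_left_cancel₀ hb0 ?_
    simp only [rho, map_sum, map_mul, hA, map_zero, map_prod, ← Polynomial.algebraMap_eq,
      ← IsScalarTower.algebraMap_apply, hy] at h1
    simp only [map_sum, map_mul, eval_C, map_prod, eval_X, map_zero, mul_zero, Finset.mul_sum,
      ← mul_assoc, h1]
  obtain ⟨j, hj⟩ : ∃ j, (rho A y).coeff j ≠ 0 := ⟨_, Polynomial.leadingCoeff_ne_zero.2 hy⟩
  let Q : MvPolynomial (Fin (n + 2)) F := ∑ I, C ((A I).coeff j) * ∏ l, X (I l)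
  have hQ : ∀ z, aeval z Q = (rho A z).coeff j := fun z => by
    rw [rho, Polynomial.finsetSum_coeff]
    simp only [Polynomial.coeff_mul_C]
    simp only [Q, map_sum, map_mul, aeval_C, map_prod, aeval_X, Algebra.algebraMap_self,
      RingHom.id_apply]
  have hQh : Q.IsHomogeneous e := IsHomogeneous.sum _ _ _ fun I _ => by
    simpa using (IsHomogeneous.prod Finset.univ (fun l => (X (I l) : MvPolynomial _ F))
      (fun _ => 1) fun l _ => isHomogeneous_X F (I l)).C_mul ((A I).coeff j)
  have h0 : ∑ I : Fin e → Fin (n + 2), C (A I) * ∏ l, aeval (th F n) (f (I l)) = 0 := by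
    apply hφ
    have := congrArg (C (algebraMap (Polynomial F) k b) * ·) hRg
    simp only [map_sum, map_mul, aeval_C, map_prod, aeval_X, algebraMap_eq, Finset.mul_sum,
      ← mul_assoc, ← C_mul, ← hA, mul_zero] at this
    rw [map_zero, ← this, map_sum]
    refine Finset.sum_congr rfl fun I _ => ?_
    rw [map_mul, map_prod]
    congr 1
    exact map_C _ _
  refine ⟨e, he, A, aeval f Q, fun h => hj ?_, hQh.aeval f hf, fun x => ⟨?_, fun h h1 => h ?_⟩⟩
  · rw [← hQ, hi.eq_zero_of_aeval_eq_zero _ h, map_zero]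
  · rw [← AdjoinRoot.mk_eq_zero]
    have h1 := congrArg (aevalTower (Polynomial.aeval (AdjoinRoot.root (ell x)) :
      Polynomial F →ₐ[F] _) (Fin.tail fun i => algebraMap F (AdjoinRoot (ell x)) (x i))) h0
    have h2 : ∑ i, algebraMap F (AdjoinRoot (ell x)) (x i) * AdjoinRoot.root (ell x) ^ (i : ℕ)
        = 0 := by
      have h3 : ∀ τ : AdjoinRoot (ell x), Polynomial.aeval τ (ell x) =
          ∑ i, algebraMap F (AdjoinRoot (ell x)) (x i) * τ ^ (i : ℕ) := fun τ => by
        conv_lhs => arg 2; unfold ell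
        simp only [map_sum, Polynomial.aeval_monomial]
      rw [← h3, AdjoinRoot.aeval_eq, AdjoinRoot.mk_self]
    simp only [map_sum, map_mul, map_prod, aevalTower_C, sub _ _ h2, map_zero] at h1
    rw [← h1, ← AdjoinRoot.aeval_eq]
    simp only [rho, map_sum, map_mul, map_prod, Polynomial.aeval_C]
    refine Finset.sum_congr rfl fun I _ => ?_
    congr 1
    refine Finset.prod_congr rfl fun l _ => ?_
    rw [← coe_aeval_eq_eval]
    exact (aeval_algebraMap_apply _ _ _).symm
  · rw [← coe_aeval_eq_eval]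
    show aeval x (aeval f Q) = 0
    rw [aeval_eq_bind₁ f, aeval_bind₁, hQ]
    exact (congrArg (fun p => Polynomial.coeff p j) h1).trans (Polynomial.coeff_zero j)

end Pool.Agent.H.MP_3d4caa_nt
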