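import Pool.Agent.H.MP_3d4caa_nt.B

open NumberField Height AdmissibleAbsValues

namespace Pool.Agent.H.MP_3d4caa_nt

lemma inf_eq {K : Type*} [Field K] [NumberField K] (g : InfinitePlace K → ℝ) :
    ∏ v, g v ^ v.mult = ∏ φ : K →+* ℂ, g (InfinitePlace.mk φ) := by
  classical
  rw [← Finset.prod_fiberwise Finset.univ InfinitePlace.mk fun φ => g (InfinitePlace.mk φ)]
  refine Finset.prod_congr rfl fun v _ => ?_
  rw [Finset.prod_congr rfl (g := fun _ => g v) fun φ hφ => by rw [(Finset.mem_filter.mp hφ).2],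
    Finset.prod_const, InfinitePlace.card_filter_mk_eq]

lemma fib {K L : Type*} [Field K] [NumberField K] [Field L] [NumberField L] [Algebra K L]
    (g : (K →+* ℂ) → ℝ) :
    ∏ ψ : L →+* ℂ, g (ψ.comp (algebraMap K L)) = (∏ φ, g φ) ^ Module.finrank K L := by
  classical
  rw [← Finset.prod_fiberwise Finset.univ (fun ψ : L →+* ℂ => ψ.comp (algebraMap K L)),
    ← Finset.prod_pow]
  refine Finset.prod_congr rfl fun φ _ => ?_
  rw [Finset.prod_congr rfl (g := fun _ => g φ) fun ψ hψ => by rw [(Finset.mem_filter.mp hψ).2],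
    Finset.prod_const]
  congr 1
  let _ : Algebra K ℂ := φ.toAlgebra
  rw [← AlgHom.card K L ℂ, ← Fintype.card_subtype]
  exact Fintype.card_congr ⟨fun ψ => ⟨ψ.1, fun r => DFunLike.congr_fun ψ.2 r⟩,
    fun ψ => ⟨ψ.toRingHom, RingHom.ext fun r => ψ.commutes r⟩, fun _ => rfl, fun _ => rfl⟩

lemma ext_int {K L ι : Type*} [Field K] [NumberField K] [Field L] [NumberField L] [Algebra K L]
    [Finite ι] (x : ι → 𝓞 K) (hx : x ≠ 0) :
    mulHeight (fun i => algebraMap K L (x i)) =
      mulHeight (fun i => (x i : K)) ^ Module.finrank K L := by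
  obtain ⟨i, hi⟩ := Function.ne_iff.1 hx
  have h1 : (fun i => (x i : K)) ≠ 0 := Function.ne_iff.2 ⟨i, by simpa using hi⟩
  have h2 : (fun i => algebraMap K L (x i)) ≠ 0 := Function.ne_iff.2 ⟨i, by simpa using hi⟩
  have h3 : (fun i => algebraMap (𝓞 K) (𝓞 L) (x i)) ≠ 0 := Function.ne_iff.2 ⟨i, by
    simpa using hi⟩
  have a1 := absNorm_mul_finprod_finitePlace_eq_one hx
  have a2 := absNorm_mul_finprod_finitePlace_eq_one h3
  have e : Ideal.span (Set.range fun i => algebraMap (𝓞 K) (𝓞 L) (x i)) =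
      (Ideal.span (Set.range x)).map (algebraMap (𝓞 K) (𝓞 L)) := by
    rw [Ideal.map_span, ← Set.range_comp]; rfl
  rw [e, Ideal.absNorm_algebraMap, ← IsFractionRing.finrank_eq (𝓞 K) K (𝓞 L) L] at a2
  rw [NumberField.mulHeight_eq h1, NumberField.mulHeight_eq h2, mul_pow]
  congr 1
  · rw [inf_eq fun v => ⨆ i, v (x i : K), inf_eq fun v => ⨆ i, v (algebraMap K L (x i)), ← fib]
    rfl
  · rw [eq_inv_of_mul_eq_one_right a1, inv_pow, ← Nat.cast_pow]
    exact eq_inv_of_mul_eq_one_right a2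

lemma ext_inv {K L ι : Type*} [Field K] [NumberField K] [Field L] [NumberField L] (σ : K →+* L)
    [Finite ι] (x : ι → K) :
    logHeight (fun i => σ (x i)) / Module.finrank ℚ L = logHeight x / Module.finrank ℚ K := by
  let _ := σ.toAlgebra
  have h : logHeight (fun i => σ (x i)) = Module.finrank K L * logHeight x := by
    rcases eq_or_ne x 0 with rfl | hx
    · simp [← Pi.zero_def]
    obtain ⟨b, hb⟩ := IsLocalization.exist_integer_multiples_of_finite (nonZeroDivisors (𝓞 K)) x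
    choose y hy using hb
    have hb : ((b : 𝓞 K) : K) ≠ 0 := by simp
    have e : (fun i => (y i : K)) = ((b : 𝓞 K) : K) • x := funext fun i => hy i
    have hy0 : y ≠ 0 := by
      rintro rfl
      exact smul_ne_zero hb hx (e.symm.trans (funext fun _ => rfl))
    have := ext_int (L := L) y hy0
    have e2 : (fun i => algebraMap K L (y i)) = σ ((b : 𝓞 K) : K) • fun i => σ (x i) :=
      funext fun i => by rw [congrFun e i]; exact map_mul σ _ _
    rw [e, e2, mulHeight_smul_eq_mulHeight _ hb,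
      mulHeight_smul_eq_mulHeight _ ((map_ne_zero σ).2 hb)] at this
    rw [logHeight_eq_log_mulHeight, this, Real.log_pow, logHeight_eq_log_mulHeight]
  have h1 : (Module.finrank K L : ℝ) ≠ 0 := Nat.cast_ne_zero.2 Module.finrank_pos.ne'
  rw [h, ← Module.finrank_mul_finrank ℚ K L, Nat.cast_mul, mul_comm (Module.finrank ℚ K : ℝ),
    mul_div_mul_left _ _ h1]

lemma hfs {K ι : Type*} [Field K] [AdmissibleAbsValues K] [Finite ι] {x : ι → K} (hx : x ≠ 0) :
    (fun v : nonarchAbsVal (K := K) => ⨆ i, v.val (x i)).HasFiniteMulSupport := by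
  have : Nonempty {j // x j ≠ 0} := nonempty_subtype.mpr <| Function.ne_iff.mp hx
  have h : (fun v : nonarchAbsVal (K := K) => ⨆ i : {j // x j ≠ 0}, v.val (x i)).HasFiniteMulSupport :=
    Function.HasFiniteMulSupport.iSup fun i => hasFiniteMulSupport i.2
  refine (congrArg Function.HasFiniteMulSupport (funext fun v => ?_)).mp h
  obtain ⟨i, hi⟩ : ∃ j, x j ≠ 0 := Function.ne_iff.mp hx
  have : Nonempty ι := .intro i
  refine le_antisymm (ciSup_le fun ⟨j, hj⟩ => Finite.le_ciSup_of_le j le_rfl) (ciSup_le fun j => ?_)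
  rcases eq_or_ne (x j) 0 with h | h
  · rw [h, v.val.map_zero]
    exact Real.iSup_nonneg' ⟨⟨i, hi⟩, v.val.nonneg ..⟩
  · exact Finite.le_ciSup_of_le ⟨j, h⟩ le_rfl

lemma cmp {K ι ι' : Type*} [Field K] [AdmissibleAbsValues K] [Finite ι] [Finite ι'] {a : ι → K}
    {b : ι' → K} (ha : a ≠ 0) (hb : b ≠ 0) {c : ℝ}
    (h1 : ∀ v ∈ archAbsVal (K := K), ∀ i, v (a i) ≤ c * ⨆ j, v (b j))
    (h2 : ∀ v ∈ nonarchAbsVal (K := K), ∀ i, v (a i) ≤ ⨆ j, v (b j)) :
    mulHeight a ≤ c ^ totalWeight K * mulHeight b := by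
  have := (Function.ne_iff.1 ha).nonempty
  have h3 : (archAbsVal.map fun v : AbsoluteValue K ℝ => ⨆ i, v (a i)).prod ≤
      (archAbsVal.map fun v : AbsoluteValue K ℝ => c * ⨆ j, v (b j)).prod :=
    Multiset.prod_map_le_prod_map₀ _ _ (fun v _ => Real.iSup_nonneg_of_nonnegHomClass ..)
      fun v hv => ciSup_le (h1 v hv)
  have h0 : 0 ≤ (archAbsVal.map fun v : AbsoluteValue K ℝ => ⨆ i, v (a i)).prod :=
    Multiset.prod_map_nonneg fun v _ => Real.iSup_nonneg_of_nonnegHomClass ..
  rw [Multiset.prod_map_mul, Multiset.map_const', Multiset.prod_replicate] at h3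
  rw [Height.mulHeight_eq ha, Height.mulHeight_eq hb, ← mul_assoc]
  refine mul_le_mul h3 ?_ (finprod_nonneg fun v => Real.iSup_nonneg_of_nonnegHomClass ..)
    (h0.trans h3)
  exact finprod_le_finprod (hfs ha)
    (fun v => Real.iSup_nonneg_of_nonnegHomClass ..) (hfs hb)
    fun v => ciSup_le (h2 v.1 v.2)

lemma ell_deg {K : Type*} [Field K] {D : ℕ} (z : Fin (D + 1) → K) : (ell z).natDegree ≤ D :=
  Polynomial.natDegree_sum_le_of_forall_le _ _ fun a _ =>
    (Polynomial.natDegree_monomial_le _).trans (by omega)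

lemma ell_of {K : Type*} [Field K] {D : ℕ} (p : Polynomial K) (h : p.natDegree ≤ D) :
    ell (fun j : Fin (D + 1) => p.coeff j) = p := by
  rw [ell, Fin.sum_univ_eq_sum_range (fun j => Polynomial.monomial j (p.coeff j))]
  exact (p.as_sum_range' _ (by omega)).symm

lemma gel {K : Type*} [Field K] [NumberField K] {m D : ℕ} (x : Fin m → K) (z : Fin (D + 1) → K)
    (hz : z ≠ 0) (h : ell x ∣ ell z) :
    logHeight x ≤ Module.finrank ℚ K * Real.log ((D + 1) * 4 ^ D) + logHeight z := by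
  obtain ⟨q, hq⟩ := h
  have hz0 : ell z ≠ 0 := fun h => hz (funext fun i => by rw [← ell_coeff z i, h]; rfl)
  have hd := ell_deg z
  have hl : ell x ≠ 0 := left_ne_zero_of_mul (hq ▸ hz0)
  have hq0 : q ≠ 0 := right_ne_zero_of_mul (hq ▸ hz0)
  rw [hq, Polynomial.natDegree_mul hl hq0] at hd
  have hx : x ≠ 0 := by rintro rfl; simp [ell] at hl
  have hw : (fun j : Fin (D + 1) => q.coeff j) ≠ 0 := fun h => hq0 (by
    rw [← ell_of (D := D) q (by omega), h]; simp [ell])
  have hc : ∀ (v : AbsoluteValue K ℝ) l, v ((ell z).coeff l) ≤ ⨆ j, v (z j) := fun v l => by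
    by_cases hl : l < D + 1
    · rw [show (ell z).coeff l = z ⟨l, hl⟩ from ell_coeff z ⟨l, hl⟩]
      exact Finite.le_ciSup (fun j => v (z j)) _
    · rw [Polynomial.coeff_eq_zero_of_natDegree_lt (by have := ell_deg z; omega), map_zero]
      exact Real.iSup_nonneg_of_nonnegHomClass ..
  have hxy : (fun a : Fin m × Fin (D + 1) => x a.1 * q.coeff a.2) ≠ 0 := by
    obtain ⟨i, hi⟩ := Function.ne_iff.mp hx
    obtain ⟨j, hj⟩ := Function.ne_iff.mp hw
    exact Function.ne_iff.mpr ⟨⟨i, j⟩, mul_ne_zero hi hj⟩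
  have key := cmp hxy hz (c := (D + 1) * 4 ^ D) (fun v hv a => by
    obtain ⟨φ, rfl⟩ := mem_multisetInfinitePlace.1 hv
    have b1 : ∀ (p : Polynomial K) (i : ℕ), p.natDegree ≤ D →
        place φ (p.coeff i) ≤ 2 ^ D * (p.map φ).mahlerMeasure := fun p i hp => by
      rw [place_apply, ← Polynomial.coeff_map]
      refine (Polynomial.norm_coeff_le_choose_mul_mahlerMeasure _ _).trans
        (mul_le_mul_of_nonneg_right ?_ (Polynomial.mahlerMeasure_nonneg _))
      exact_mod_cast (Nat.choose_le_two_pow _ _).trans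
        (Nat.pow_le_pow_right two_pos (Polynomial.natDegree_map_le.trans hp))
    have b2 : ((ell z).map φ).mahlerMeasure ≤ (D + 1) * ⨆ j, place φ (z j) := by
      refine (Polynomial.mahlerMeasure_le_sum_norm_coeff _).trans ?_
      refine (Finset.sum_le_card_nsmul _ _ (⨆ j, place φ (z j)) fun l _ => ?_).trans ?_
      · rw [Polynomial.coeff_map]; exact hc (place φ) l
      · rw [nsmul_eq_mul]
        refine mul_le_mul_of_nonneg_right ?_ (Real.iSup_nonneg_of_nonnegHomClass ..)
        exact_mod_cast (Polynomial.card_supp_le_succ_natDegree _).trans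
          (Nat.succ_le_succ (Polynomial.natDegree_map_le.trans (ell_deg z)))
    rw [hq, Polynomial.map_mul, Polynomial.mahlerMeasure_mul] at b2
    rw [map_mul, ← ell_coeff x]
    calc _ ≤ (2 ^ D * ((ell x).map φ).mahlerMeasure) * (2 ^ D * (q.map φ).mahlerMeasure) :=
          mul_le_mul (b1 _ _ (by omega)) (b1 _ _ (by omega)) (apply_nonneg _ _)
            ((apply_nonneg _ _).trans (b1 _ 0 (by omega)))
      _ = 4 ^ D * (((ell x).map φ).mahlerMeasure * (q.map φ).mahlerMeasure) := by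
          rw [show (4 : ℝ) = 2 * 2 by norm_num, mul_pow]; ring
      _ ≤ 4 ^ D * ((D + 1) * ⨆ j, place φ (z j)) := by gcongr
      _ = _ := by ring) (fun v hv a => by
    have b1 : ∀ (p : Polynomial K) (i : ℕ), v (p.coeff i) ≤ p.gaussNorm v 1 := fun p i => by
      simpa using p.le_gaussNorm v zero_le_one i
    obtain ⟨l, hl⟩ := (ell z).exists_eq_gaussNorm v 1
    rw [one_pow, mul_one] at hl
    refine le_trans ?_ (hl.le.trans (hc v l))
    rw [hq, Polynomial.gaussNorm_mul (isNonarchimedean v hv) one_pos, map_mul, ← ell_coeff x]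
    exact mul_le_mul (b1 _ _) (b1 _ _) (apply_nonneg _ _) ((apply_nonneg _ _).trans (b1 _ 0)))
  rw [mulHeight_fun_mul_eq hx hw, totalWeight_eq_finrank] at key
  have k2 := (le_mul_of_one_le_right (mulHeight_pos x).le (one_le_mulHeight _)).trans key
  rw [logHeight_eq_log_mulHeight, logHeight_eq_log_mulHeight, ← Real.log_pow,
    ← Real.log_mul (by positivity) (mulHeight_ne_zero _)]
  exact Real.log_le_log (mulHeight_pos x) k2

lemma mainK {K ι : Type*} [Field K] [NumberField K] [Fintype ι] {m D e : ℕ} (x : Fin m → K)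
    (y : ι → K) (hy : y ≠ 0) (a : Fin (D + 1) × (Fin e → ι) → K)
    (hz : (fun j => ∑ I, a (j, I) * ∏ l, y (I l)) ≠ 0)
    (h : ell x ∣ ell fun j => ∑ I, a (j, I) * ∏ l, y (I l)) :
    logHeight x / Module.finrank ℚ K ≤ Real.log ((D + 1) * 4 ^ D) +
      Real.log (Nat.card (Fin e → ι)) + logHeight a / Module.finrank ℚ K +
      e * (logHeight y / Module.finrank ℚ K) := by
  have h1 := gel x _ hz h
  have h2 := logHeight_linearMap_apply_le a fun I => ∏ l, y (I l)
  rw [logHeight_fun_prod_eq (x := fun _ => y) fun _ => hy, totalWeight_eq_finrank] at h2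
  simp only [Finset.sum_const, Finset.card_univ, Fintype.card_fin, nsmul_eq_mul] at h2
  have h3 : (0 : ℝ) < Module.finrank ℚ K := Nat.cast_pos.2 Module.finrank_pos
  rw [div_le_iff₀ h3]
  generalize Real.log ((D + 1) * 4 ^ D) = c at h1 ⊢
  simp only [add_mul, mul_assoc, div_mul_cancel₀ _ h3.ne']
  linarith

end Pool.Agent.H.MP_3d4caa_nt
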